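import Pool.Agent.H20.TT4

set_option autoImplicit false

namespace Pool.Agent.Results.MP_3f42a7_lc.Omit
open Pool.Agent.H20.TT

/-- the sentence letters occurring in a formula -/
def letters : Fm → Set ℕ
  | .var p => {p}
  | .neg φ => letters φ
  | .and φ ψ => letters φ ∪ letters ψ
  | .or φ ψ => letters φ ∪ letters ψ
  | .imp φ ψ => letters φ ∪ letters ψ

lemma pure {S : Set ℕ} (φ : Fm) (h : letters φ ⊆ S) : tl S φ false = .top ∧ tl S φ true = .bot := by
  induction φ with
  | var p => simp [tl, h (show p ∈ letters (.var p) from rfl)]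
  | neg φ ih => simp [tl, ih h, V.neg]
  | and φ ψ a b => simp [tl, a (Set.union_subset_iff.1 h).1, b (Set.union_subset_iff.1 h).2, V.and]
  | or φ ψ a b => simp [tl, a (Set.union_subset_iff.1 h).1, b (Set.union_subset_iff.1 h).2, V.or]
  | imp φ ψ a b => simp [tl, a (Set.union_subset_iff.1 h).1, b (Set.union_subset_iff.1 h).2, V.and, V.imp]

lemma diag {S : Set ℕ} (φ : Fm) (h : Disjoint S (letters φ)) :
    ∀ b, (V.fm φ).le (tl S φ b) ∧ (tl S φ b).le (.fm φ) := by
  induction φ with
  | var p => simp [tl, Set.disjoint_right.1 h (show p ∈ letters (.var p) from rfl), V.refl]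
  | neg φ ih => exact fun b => ⟨(ih h _).2.neg, (ih h _).1.neg⟩
  | and φ ψ a b =>
    replace a := a (Set.disjoint_union_right.1 h).1
    replace b := b (Set.disjoint_union_right.1 h).2
    exact fun c => ⟨V.ai (V.le.trans (y := .fm φ) I.al (a c).1) (V.le.trans (y := .fm ψ) I.ar (b c).1),
      V.ai (x := .fm φ) (y := .fm ψ) (V.al.trans (a c).2) (V.ar.trans (b c).2)⟩
  | or φ ψ a b =>
    replace a := a (Set.disjoint_union_right.1 h).1
    replace b := b (Set.disjoint_union_right.1 h).2
    exact fun c => ⟨V.oe (x := .fm φ) (y := .fm ψ) ((a c).1.trans V.ol) ((b c).1.trans V.orr),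
      V.oe ((a c).2.trans I.ol) ((b c).2.trans I.or)⟩
  | imp φ ψ a b =>
    replace a := a (Set.disjoint_union_right.1 h).1
    replace b := b (Set.disjoint_union_right.1 h).2
    intro c
    cases c
    · exact ⟨V.ai ((a _).2.imp (b _).1) ((a _).2.imp (b _).1), V.al.trans ((a _).1.imp (b _).2)⟩
    · exact ⟨(a _).2.imp (b _).1, (a _).1.imp (b _).2⟩

theorem result (α β γ : Fm) (h1 : Disjoint (letters β) (letters α)) (h2 : Disjoint (letters β) (letters γ))
    (h : Acc (.imp (.and α β) γ) ∨ Acc (.imp α (.or β γ))) : Acc (.imp α γ) := by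
  have hβ := pure β subset_rfl
  show (V.fm α).le (.fm γ)
  rcases h with h | h
  · exact (V.ai (diag α h1 false).1 (by rw [hβ.1]; trivial)).trans
      ((tl_le (letters β) h false).trans (diag γ h2 false).2)
  · exact ((diag α h1 true).1.trans (tl_le (letters β) h true)).trans
      (V.oe (by rw [hβ.2]; trivial) (diag γ h2 true).2)

end Pool.Agent.Results.MP_3f42a7_lc.Omit
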